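import Pool.Agent.LibMR10.R2

set_option autoImplicit false

/-! MP_ed98ad_ag, block H (helper10): regular pairs of minors. -/

namespace Pool.Agent.LibMR10

open Pool.Agent.LibMX34

section sadic

variable (k : Type) [Field k] {σ : Type}

theorem sV_pow_dvd_iff (N : ℕ) (f : MvPowerSeries σ (PowerSeries k)) :
    sV k ^ N ∣ f ↔ ∀ e, (PowerSeries.X : PowerSeries k) ^ N ∣ MvPowerSeries.coeff e f := by
  constructor
  · rintro ⟨g, rfl⟩ e
    rw [sV, ← map_pow, MvPowerSeries.coeff_C_mul]
    exact Dvd.intro _ rfl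
  · intro h
    choose g hg using h
    refine ⟨fun e => g e, ?_⟩
    ext1 e
    rw [sV, ← map_pow, MvPowerSeries.coeff_C_mul, hg e]
    rfl

theorem sV_ne : (sV k : MvPowerSeries σ (PowerSeries k)) ≠ 0 := by
  intro h
  have h1 : MvPowerSeries.coeff 0 (sV k : MvPowerSeries σ (PowerSeries k)) = 0 := by rw [h, map_zero]
  rw [sV, MvPowerSeries.coeff_zero_C] at h1
  exact PowerSeries.X_ne_zero h1

theorem at_ker' (f : MvPowerSeries σ (PowerSeries k)) (h : atZero k f = 0) : sV k ∣ f := by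
  have h1 : sV k ^ 1 ∣ f := by
    rw [sV_pow_dvd_iff]
    intro e
    rw [pow_one, PowerSeries.X_dvd_iff]
    have h2 : MvPowerSeries.coeff e (atZero k f) = 0 := by rw [h, map_zero]
    rwa [atZero, MvPowerSeries.coeff_map] at h2
  rwa [pow_one] at h1

theorem at_surj' (c : MvPowerSeries σ k) : ∃ f : MvPowerSeries σ (PowerSeries k), atZero k f = c := by
  refine ⟨fun e => PowerSeries.C (MvPowerSeries.coeff e c), ?_⟩
  ext1 e
  rw [atZero, MvPowerSeries.coeff_map]
  show PowerSeries.constantCoeff (PowerSeries.C (MvPowerSeries.coeff e c)) = _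
  simp

theorem sum_sV (c : ℕ → MvPowerSeries σ (PowerSeries k)) :
    ∃ C : MvPowerSeries σ (PowerSeries k), ∀ N, sV k ^ N ∣ C - ∑ j ∈ Finset.range N, sV k ^ j * c j := by
  let C : MvPowerSeries σ (PowerSeries k) := fun e =>
    PowerSeries.mk fun n => ∑ j ∈ Finset.range (n + 1), PowerSeries.coeff n (MvPowerSeries.coeff e (sV k ^ j * c j))
  refine ⟨C, fun N => ?_⟩
  rw [sV_pow_dvd_iff]
  intro e
  rw [PowerSeries.X_pow_dvd_iff]
  intro n hn
  have h1 : PowerSeries.coeff n (MvPowerSeries.coeff e C) =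
      ∑ j ∈ Finset.range (n + 1), PowerSeries.coeff n (MvPowerSeries.coeff e (sV k ^ j * c j)) :=
    PowerSeries.coeff_mk n fun n => ∑ j ∈ Finset.range (n + 1), PowerSeries.coeff n (MvPowerSeries.coeff e (sV k ^ j * c j))
  rw [map_sub, map_sub, h1, map_sum, map_sum, sub_eq_zero]
  refine Finset.sum_subset ?_ ?_
  · intro j hj
    rw [Finset.mem_range] at hj ⊢
    omega
  · intro j hj hj'
    rw [Finset.mem_range] at hj hj'
    have h2 : sV k ^ j ∣ sV k ^ j * c j := Dvd.intro _ rfl
    rw [sV_pow_dvd_iff] at h2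
    have h3 := h2 e
    rw [PowerSeries.X_pow_dvd_iff] at h3
    exact h3 n (by omega)

theorem sep_sV (x : MvPowerSeries σ (PowerSeries k)) (h : ∀ N, sV k ^ N ∣ x) : x = 0 := by
  ext1 e
  ext1 n
  have h1 := h (n + 1)
  rw [sV_pow_dvd_iff] at h1
  have h2 := h1 e
  rw [PowerSeries.X_pow_dvd_iff] at h2
  rw [h2 n (by omega), map_zero, map_zero]

theorem regPair_at (a b : MvPowerSeries σ (PowerSeries k)) (h : RegPair (atZero k a) (atZero k b)) : RegPair a b := by
  haveI : IsDomain (MvPowerSeries σ (PowerSeries k)) := NoZeroDivisors.to_isDomain _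
  haveI : IsDomain (MvPowerSeries σ k) := NoZeroDivisors.to_isDomain _
  refine regPair_of (atZero k) (sV k) (sV_ne k) (fun x => at_ker' k x) ?_ (sum_sV k) (sep_sV k) a b h
  intro a x c hc
  obtain ⟨c', hc'⟩ := at_surj' k c
  exact ⟨c', by rw [hc', hc]⟩

end sadic

section base

variable {K : Type} [CommRing K] [IsDomain K] {σ : Type}

/-- `x y z` and `b` form a regular sequence if none of `x, y, z` divides `b` -/
theorem regPair_xyz (i j l : σ) (c : MvPowerSeries σ K) (hc : IsUnit c) (b : MvPowerSeries σ K)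
    (hi : ¬ MvPowerSeries.X i ∣ b) (hj : ¬ MvPowerSeries.X j ∣ b) (hl : ¬ MvPowerSeries.X l ∣ b) :
    RegPair (c * (MvPowerSeries.X i * MvPowerSeries.X j * MvPowerSeries.X l)) b := by
  haveI : IsDomain (MvPowerSeries σ K) := NoZeroDivisors.to_isDomain _
  have hX : ∀ i : σ, (MvPowerSeries.X i : MvPowerSeries σ K) ≠ 0 := by
    intro i h0
    have h1 : MvPowerSeries.coeff (Finsupp.single i 1) (MvPowerSeries.X i : MvPowerSeries σ K) = 0 := by rw [h0, map_zero]
    classical
    rw [MvPowerSeries.coeff_X, if_pos rfl] at h1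
    exact one_ne_zero h1
  refine ⟨mul_ne_zero hc.ne_zero (mul_ne_zero (mul_ne_zero (hX i) (hX j)) (hX l)), ?_⟩
  intro y hy
  have h1 : MvPowerSeries.X i * (MvPowerSeries.X j * MvPowerSeries.X l) ∣ b * y := by
    refine dvd_trans ?_ hy
    rw [mul_assoc]
    exact dvd_mul_left _ _
  obtain ⟨y1, rfl⟩ : MvPowerSeries.X i ∣ y := by
    rcases X_prime' K (dvd_trans (dvd_mul_right _ _) h1) with h | h
    · exact absurd h hi
    · exact h
  have h2 : MvPowerSeries.X j * MvPowerSeries.X l ∣ b * y1 := by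
    have h3 : MvPowerSeries.X i * (MvPowerSeries.X j * MvPowerSeries.X l) ∣ MvPowerSeries.X i * (b * y1) := by
      have h4 : MvPowerSeries.X i * (b * y1) = b * (MvPowerSeries.X i * y1) := by ring
      rw [h4]
      exact h1
    exact (mul_dvd_mul_iff_left (hX i)).1 h3
  obtain ⟨y2, rfl⟩ : MvPowerSeries.X j ∣ y1 := by
    rcases X_prime' K (dvd_trans (dvd_mul_right _ _) h2) with h | h
    · exact absurd h hj
    · exact h
  have h3 : MvPowerSeries.X l ∣ b * y2 := by
    have h4 : MvPowerSeries.X j * MvPowerSeries.X l ∣ MvPowerSeries.X j * (b * y2) := by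
      have h5 : MvPowerSeries.X j * (b * y2) = b * (MvPowerSeries.X j * y2) := by ring
      rw [h5]
      exact h2
    exact (mul_dvd_mul_iff_left (hX j)).1 h4
  obtain ⟨y3, rfl⟩ : MvPowerSeries.X l ∣ y2 := by
    rcases X_prime' K h3 with h | h
    · exact absurd h hl
    · exact h
  obtain ⟨d, hd⟩ := hc.exists_right_inv
  refine ⟨d * y3, ?_⟩
  linear_combination (-(MvPowerSeries.X i * MvPowerSeries.X j * MvPowerSeries.X l * y3)) * hd

end base

end Pool.Agent.LibMR10
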