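import Pool.Agent.LibMR10.R6

set_option autoImplicit false

/-! MP_ed98ad_ag, block H (helper10): the fields `regA`, `reg0` of `Geo` for the net `x^2, y^2 + xz, z^2 + xy, yz`. -/

namespace Pool.Agent.LibMR10

open Pool.Agent.LibMX34

/-- the net with a `Z/3`-symmetry in eigen form -/
noncomputable def qC (k : Type) [Field k] (r : ℕ) : Fin 4 → MvPowerSeries (Fin (r + 3)) k :=
  let x := MvPowerSeries.X (xv r 0)
  let y := MvPowerSeries.X (xv r 1)
  let z := MvPowerSeries.X (xv r 2)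
  ![x ^ 2, y ^ 2 + x * z, z ^ 2 + x * y, y * z]

/-- powers of different variables -/
theorem regPair_pow {K : Type} [CommRing K] [IsDomain K] {σ : Type} (i j : σ) (hij : i ≠ j) (n m : ℕ)
    (c d : MvPowerSeries σ K) (hc : IsUnit c) (hd : IsUnit d) :
    RegPair (c * MvPowerSeries.X i ^ n) (d * MvPowerSeries.X j ^ m) := by
  classical
  have hX : (MvPowerSeries.X i : MvPowerSeries σ K) ≠ 0 := by
    intro h0
    have h1 : MvPowerSeries.coeff (Finsupp.single i 1) (MvPowerSeries.X i : MvPowerSeries σ K) = 0 := by rw [h0, map_zero]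
    rw [MvPowerSeries.coeff_X, if_pos rfl] at h1
    exact one_ne_zero h1
  refine ⟨mul_ne_zero hc.ne_zero (pow_ne_zero _ hX), ?_⟩
  intro y hy
  rw [hc.mul_left_dvd] at hy ⊢
  rw [mul_assoc, hd.dvd_mul_left] at hy
  rw [MvPowerSeries.X_pow_dvd_iff] at hy ⊢
  intro e he
  have h1 := hy (e + Finsupp.single j m) (by
    rw [Finsupp.add_apply, Finsupp.single_eq_of_ne hij, add_zero]
    exact he)
  rw [MvPowerSeries.X_pow_eq, MvPowerSeries.coeff_monomial_mul, if_pos le_add_self, one_mul, add_tsub_cancel_right] at h1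
  exact h1

section

variable (k : Type) [Field k] (r : ℕ)


theorem jac_qC (i : Fin 3) (j : Fin 4) : jacM k (qC k r) i j =
    (![![2 * (MvPowerSeries.X (xv r 0) : MvPowerSeries (Fin (r + 3)) k), (MvPowerSeries.X (xv r 2) : MvPowerSeries (Fin (r + 3)) k), (MvPowerSeries.X (xv r 1) : MvPowerSeries (Fin (r + 3)) k), 0], ![0, 2 * (MvPowerSeries.X (xv r 1) : MvPowerSeries (Fin (r + 3)) k), (MvPowerSeries.X (xv r 0) : MvPowerSeries (Fin (r + 3)) k), (MvPowerSeries.X (xv r 2) : MvPowerSeries (Fin (r + 3)) k)], ![0, (MvPowerSeries.X (xv r 0) : MvPowerSeries (Fin (r + 3)) k), 2 * (MvPowerSeries.X (xv r 2) : MvPowerSeries (Fin (r + 3)) k), (MvPowerSeries.X (xv r 1) : MvPowerSeries (Fin (r + 3)) k)]] : Fin 3 → Fin 4 → MvPowerSeries (Fin (r + 3)) k) i j := by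
  rw [jacM]
  have h0 := pd_xv k (r := r) i 0
  have h1 := pd_xv k (r := r) i 1
  have h2 := pd_xv k (r := r) i 2
  generalize MvPowerSeries.pderiv k (Fin.castLE (by omega) i : Fin (r + 3)) = D at h0 h1 h2 ⊢
  have e0 : D (qC k r 0) = 2 * (MvPowerSeries.X (xv r 0) : MvPowerSeries (Fin (r + 3)) k) * D (MvPowerSeries.X (xv r 0) : MvPowerSeries (Fin (r + 3)) k) := by
    show D ((MvPowerSeries.X (xv r 0) : MvPowerSeries (Fin (r + 3)) k) ^ 2) = _
    rw [pow_two, Derivation.leibniz, smul_eq_mul]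
    ring
  have e1 : D (qC k r 1) = (MvPowerSeries.X (xv r 2) : MvPowerSeries (Fin (r + 3)) k) * D (MvPowerSeries.X (xv r 0) : MvPowerSeries (Fin (r + 3)) k) + 2 * (MvPowerSeries.X (xv r 1) : MvPowerSeries (Fin (r + 3)) k) * D (MvPowerSeries.X (xv r 1) : MvPowerSeries (Fin (r + 3)) k) + (MvPowerSeries.X (xv r 0) : MvPowerSeries (Fin (r + 3)) k) * D (MvPowerSeries.X (xv r 2) : MvPowerSeries (Fin (r + 3)) k) := by
    show D ((MvPowerSeries.X (xv r 1) : MvPowerSeries (Fin (r + 3)) k) ^ 2 + (MvPowerSeries.X (xv r 0) : MvPowerSeries (Fin (r + 3)) k) * (MvPowerSeries.X (xv r 2) : MvPowerSeries (Fin (r + 3)) k)) = _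
    rw [map_add, pow_two, Derivation.leibniz, Derivation.leibniz]
    simp only [smul_eq_mul]
    ring
  have e2 : D (qC k r 2) = (MvPowerSeries.X (xv r 1) : MvPowerSeries (Fin (r + 3)) k) * D (MvPowerSeries.X (xv r 0) : MvPowerSeries (Fin (r + 3)) k) + (MvPowerSeries.X (xv r 0) : MvPowerSeries (Fin (r + 3)) k) * D (MvPowerSeries.X (xv r 1) : MvPowerSeries (Fin (r + 3)) k) + 2 * (MvPowerSeries.X (xv r 2) : MvPowerSeries (Fin (r + 3)) k) * D (MvPowerSeries.X (xv r 2) : MvPowerSeries (Fin (r + 3)) k) := by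
    show D ((MvPowerSeries.X (xv r 2) : MvPowerSeries (Fin (r + 3)) k) ^ 2 + (MvPowerSeries.X (xv r 0) : MvPowerSeries (Fin (r + 3)) k) * (MvPowerSeries.X (xv r 1) : MvPowerSeries (Fin (r + 3)) k)) = _
    rw [map_add, pow_two, Derivation.leibniz, Derivation.leibniz]
    simp only [smul_eq_mul]
    ring
  have e3 : D (qC k r 3) = (MvPowerSeries.X (xv r 2) : MvPowerSeries (Fin (r + 3)) k) * D (MvPowerSeries.X (xv r 1) : MvPowerSeries (Fin (r + 3)) k) + (MvPowerSeries.X (xv r 1) : MvPowerSeries (Fin (r + 3)) k) * D (MvPowerSeries.X (xv r 2) : MvPowerSeries (Fin (r + 3)) k) := by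
    show D ((MvPowerSeries.X (xv r 1) : MvPowerSeries (Fin (r + 3)) k) * (MvPowerSeries.X (xv r 2) : MvPowerSeries (Fin (r + 3)) k)) = _
    rw [Derivation.leibniz]
    simp only [smul_eq_mul]
    ring
  rw [h0] at e0
  rw [h0, h1, h2] at e1 e2
  rw [h1, h2] at e3
  fin_cases j
  · show D (qC k r 0) = _
    rw [e0]
    fin_cases i <;> simp
  · show D (qC k r 1) = _
    rw [e1]
    fin_cases i <;> simp
  · show D (qC k r 2) = _
    rw [e2]
    fin_cases i <;> simp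
  · show D (qC k r 3) = _
    rw [e3]
    fin_cases i <;> simp

/-- the numbers `e_j` -/
def epsC (k : Type) [Field k] : Fin 4 → k := ![1, 0, 0, 0]

theorem reg_qC [CharZero k] : RegPair (mn (jacM k (qC k r)) 3) (∑ j, MvPowerSeries.C (epsC k j) * mn (jacM k (qC k r)) j) := by
  haveI : IsDomain (MvPowerSeries (Fin (r + 3)) k) := NoZeroDivisors.to_isDomain _
  have h3 : mn (jacM k (qC k r)) 3 = ((2 : ℕ) : MvPowerSeries (Fin (r + 3)) k) * ((MvPowerSeries.X (xv r 0) : MvPowerSeries (Fin (r + 3)) k) * ((MvPowerSeries.X (xv r 0) : MvPowerSeries (Fin (r + 3)) k) ^ 2 - ((4 : ℕ) : MvPowerSeries (Fin (r + 3)) k) * (MvPowerSeries.X (xv r 1) : MvPowerSeries (Fin (r + 3)) k) * (MvPowerSeries.X (xv r 2) : MvPowerSeries (Fin (r + 3)) k))) := by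
    rw [mn_three]
    simp only [jac_qC]
    show - (2 * (MvPowerSeries.X (xv r 0) : MvPowerSeries (Fin (r + 3)) k) * (2 * (MvPowerSeries.X (xv r 1) : MvPowerSeries (Fin (r + 3)) k)) * (2 * (MvPowerSeries.X (xv r 2) : MvPowerSeries (Fin (r + 3)) k)) - 2 * (MvPowerSeries.X (xv r 0) : MvPowerSeries (Fin (r + 3)) k) * (MvPowerSeries.X (xv r 0) : MvPowerSeries (Fin (r + 3)) k) * (MvPowerSeries.X (xv r 0) : MvPowerSeries (Fin (r + 3)) k) - (MvPowerSeries.X (xv r 2) : MvPowerSeries (Fin (r + 3)) k) * 0 * (2 * (MvPowerSeries.X (xv r 2) : MvPowerSeries (Fin (r + 3)) k)) + (MvPowerSeries.X (xv r 2) : MvPowerSeries (Fin (r + 3)) k) * (MvPowerSeries.X (xv r 0) : MvPowerSeries (Fin (r + 3)) k) * 0 + (MvPowerSeries.X (xv r 1) : MvPowerSeries (Fin (r + 3)) k) * 0 * (MvPowerSeries.X (xv r 0) : MvPowerSeries (Fin (r + 3)) k) - (MvPowerSeries.X (xv r 1) : MvPowerSeries (Fin (r + 3)) k) * (2 * (MvPowerSeries.X (xv r 1) : MvPowerSeries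 (Fin (r + 3)) k)) * 0) = _
    push_cast
    ring
  have h4 : (∑ j, MvPowerSeries.C (epsC k j) * mn (jacM k (qC k r)) j) =
      ((2 : ℕ) : MvPowerSeries (Fin (r + 3)) k) * ((MvPowerSeries.X (xv r 0) : MvPowerSeries (Fin (r + 3)) k) * (MvPowerSeries.X (xv r 1) : MvPowerSeries (Fin (r + 3)) k) * (MvPowerSeries.X (xv r 2) : MvPowerSeries (Fin (r + 3)) k) - (MvPowerSeries.X (xv r 1) : MvPowerSeries (Fin (r + 3)) k) ^ 3 - (MvPowerSeries.X (xv r 2) : MvPowerSeries (Fin (r + 3)) k) ^ 3) := by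
    rw [Fin.sum_univ_four]
    show MvPowerSeries.C 1 * mn (jacM k (qC k r)) 0 + MvPowerSeries.C 0 * mn (jacM k (qC k r)) 1 +
      MvPowerSeries.C 0 * mn (jacM k (qC k r)) 2 + MvPowerSeries.C 0 * mn (jacM k (qC k r)) 3 = _
    rw [mn_zero, map_one, map_zero, one_mul, zero_mul, zero_mul, zero_mul, add_zero, add_zero, add_zero]
    simp only [jac_qC]
    show (MvPowerSeries.X (xv r 2) : MvPowerSeries (Fin (r + 3)) k) * (MvPowerSeries.X (xv r 0) : MvPowerSeries (Fin (r + 3)) k) * (MvPowerSeries.X (xv r 1) : MvPowerSeries (Fin (r + 3)) k) - (MvPowerSeries.X (xv r 2) : MvPowerSeries (Fin (r + 3)) k) * (MvPowerSeries.X (xv r 2) : MvPowerSeries (Fin (r + 3)) k) * (2 * (MvPowerSeries.X (xv r 2) : MvPowerSeries (Fin (r + 3)) k)) - (MvPowerSeries.X (xv r 1) : MvPowerSeries (Fin (r + 3)) k) * (2 * (MvPowerSeries.X (xv r 1) : MvPowerSeries (Fin (r + 3)) k)) * (MvPowerSeries.X (xv r 1) : MvPowerSeries (Fin (r + 3)) k) + (MvPowerSeries.X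 (xv r 1) : MvPowerSeries (Fin (r + 3)) k) * (MvPowerSeries.X (xv r 2) : MvPowerSeries (Fin (r + 3)) k) * (MvPowerSeries.X (xv r 0) : MvPowerSeries (Fin (r + 3)) k) + 0 * (2 * (MvPowerSeries.X (xv r 1) : MvPowerSeries (Fin (r + 3)) k)) * (2 * (MvPowerSeries.X (xv r 2) : MvPowerSeries (Fin (r + 3)) k)) - 0 * (MvPowerSeries.X (xv r 0) : MvPowerSeries (Fin (r + 3)) k) * (MvPowerSeries.X (xv r 0) : MvPowerSeries (Fin (r + 3)) k) = _
    push_cast
    ring
  rw [h3, h4]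
  apply regPair_kill_one k (xv r 2)
  simp only [map_mul, map_sub, map_pow, map_natCast, kill_self, kill_other k r 2 0 (by decide), kill_other k r 2 1 (by decide)]
  have h5 : ((2 : ℕ) : MvPowerSeries (Fin (r + 3)) k) * ((MvPowerSeries.X (xv r 0) : MvPowerSeries (Fin (r + 3)) k) * ((MvPowerSeries.X (xv r 0) : MvPowerSeries (Fin (r + 3)) k) ^ 2 - ((4 : ℕ) : MvPowerSeries (Fin (r + 3)) k) * (MvPowerSeries.X (xv r 1) : MvPowerSeries (Fin (r + 3)) k) * 0)) =
    ((2 : ℕ) : MvPowerSeries (Fin (r + 3)) k) * (MvPowerSeries.X (xv r 0) : MvPowerSeries (Fin (r + 3)) k) ^ 3 := by ring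
  have h6 : ((2 : ℕ) : MvPowerSeries (Fin (r + 3)) k) * ((MvPowerSeries.X (xv r 0) : MvPowerSeries (Fin (r + 3)) k) * (MvPowerSeries.X (xv r 1) : MvPowerSeries (Fin (r + 3)) k) * 0 - (MvPowerSeries.X (xv r 1) : MvPowerSeries (Fin (r + 3)) k) ^ 3 - 0 ^ 3) =
    (-((2 : ℕ) : MvPowerSeries (Fin (r + 3)) k)) * (MvPowerSeries.X (xv r 1) : MvPowerSeries (Fin (r + 3)) k) ^ 3 := by ring
  rw [h5, h6]
  apply regPair_pow
  · intro h
    exact absurd (xv_inj r h) (by decide)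
  · exact num_unit k r 2 (by norm_num)
  · exact (num_unit k r 2 (by norm_num)).neg

end

section final

variable (k : Type) [Field k] [CharZero k] {r : ℕ}

/-- the field `reg0` of `Geo` for the net `x^2, y^2 + xz, z^2 + xy, yz` -/
theorem reg0_of_C (Φ : Fin 4 → MvPowerSeries (Fin (r + 3)) (PowerSeries k))
    (h : ∀ j, kill k (uvars r : Set (Fin (r + 3))) (atZero k (Φ j)) = qC k r j) :
    ∃ e : Fin 4 → MvPowerSeries (Fin (r + 3)) k,
      RegPair (mn (jacM k fun j => atZero k (Φ j)) 3) (∑ j, e j * mn (jacM k fun j => atZero k (Φ j)) j) :=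
  ⟨fun j => MvPowerSeries.C (epsC k j),
    reg_of_kill k (fun j => atZero k (Φ j)) (qC k r) h (epsC k) (reg_qC k r)⟩

end final

end Pool.Agent.LibMR10
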