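import Pool.Agent.LibMX34.IDefs

set_option autoImplicit false

/-! MP_ed98ad_ag, block H (helper10): regular pairs lift along `s = 0` and along `u = 0`. -/

namespace Pool.Agent.LibMR10

open Pool.Agent.LibMX34

theorem regPair_of {R R' : Type} [CommRing R] [CommRing R'] [IsDomain R] [IsDomain R'] (π : R →+* R') (t : R) (ht : t ≠ 0)
    (hker : ∀ x, π x = 0 → t ∣ x)
    (hlift : ∀ a x c, π x = π a * c → ∃ c', π x = π a * π c')
    (hsum : ∀ c : ℕ → R, ∃ C, ∀ N, t ^ N ∣ C - ∑ i ∈ Finset.range N, t ^ i * c i)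
    (hsep : ∀ x : R, (∀ N, t ^ N ∣ x) → x = 0)
    (a b : R) (h : RegPair (π a) (π b)) : RegPair a b := by
  obtain ⟨ha, hab⟩ := h
  have ha0 : a ≠ 0 := by
    rintro rfl
    exact ha (map_zero π)
  refine ⟨ha0, ?_⟩
  -- one step
  have step : ∀ y z : R, b * y = a * z → ∃ c y' z' : R, y = a * c + t * y' ∧ b * y' = a * z' := by
    intro y z hyz
    have h1 : π b * π y = π a * π z := by rw [← map_mul, ← map_mul, hyz]
    obtain ⟨c, hc⟩ := hab (π y) ⟨π z, h1⟩
    obtain ⟨c', hc'⟩ := hlift a y c hc
    have h2 : π z = π b * π c' := by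
      have h3 : π a * (π z - π b * π c') = 0 := by
        have : π a * π z = π b * (π a * π c') := by rw [← h1, hc']
        linear_combination this
      rcases mul_eq_zero.1 h3 with h4 | h4
      · exact absurd h4 ha
      · exact sub_eq_zero.1 h4
    obtain ⟨y', hy'⟩ := hker (y - a * c') (by rw [map_sub, map_mul, hc', sub_self])
    obtain ⟨z', hz'⟩ := hker (z - b * c') (by rw [map_sub, map_mul, h2, sub_self])
    refine ⟨c', y', z', by linear_combination hy', ?_⟩
    have h5 : t * (b * y') = t * (a * z') := by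
      linear_combination (-b) * hy' + a * hz' + hyz
    exact mul_left_cancel₀ ht h5
  intro y hy
  obtain ⟨z, hz⟩ := hy
  choose! fc fy fz h1 h2 using step
  let st : ℕ → R × R := fun n => Nat.rec (y, z) (fun _ p => (fy p.1 p.2, fz p.1 p.2)) n
  have hst : ∀ n, b * (st n).1 = a * (st n).2 := by
    intro n
    induction n with
    | zero => exact hz
    | succ n ih => exact h2 _ _ ih
  have hst1 : ∀ n, (st n).1 = a * fc (st n).1 (st n).2 + t * (st (n + 1)).1 := by
    intro n
    exact h1 _ _ (hst n)
  have hsumm : ∀ N, y = a * ∑ i ∈ Finset.range N, t ^ i * fc (st i).1 (st i).2 + t ^ N * (st N).1 := by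
    intro N
    induction N with
    | zero => simp [st]
    | succ N ih =>
      rw [Finset.sum_range_succ]
      have h3 := hst1 N
      have h4 : y = a * ∑ i ∈ Finset.range N, t ^ i * fc (st i).1 (st i).2 + t ^ N * (a * fc (st N).1 (st N).2 + t * (st (N + 1)).1) := by
        rw [← h3]
        exact ih
      linear_combination h4
  obtain ⟨C, hC⟩ := hsum fun i => fc (st i).1 (st i).2
  refine ⟨C, ?_⟩
  have h5 : y - a * C = 0 := by
    apply hsep
    intro N
    obtain ⟨d, hd⟩ := hC N
    refine ⟨(st N).1 - a * d, ?_⟩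
    have h6 := hsumm N
    linear_combination h6 - a * hd
  exact sub_eq_zero.1 h5

end Pool.Agent.LibMR10
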