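import Pool.Agent.LibMR10.R1

set_option autoImplicit false

/-! MP_ed98ad_ag, block H (helper10): setting some variables equal to zero. -/

namespace Pool.Agent.LibMR10

open Pool.Agent.LibMX34

section kill

variable {σ : Type} (K : Type) [CommRing K] (S : Set σ)

open Classical in
/-- the variables in `S` are set to `0` -/
noncomputable def kill : MvPowerSeries σ K →+* MvPowerSeries σ K where
  toFun f := fun e => if ∀ i ∈ S, e i = 0 then MvPowerSeries.coeff e f else 0
  map_one' := by
    ext e
    show (if ∀ i ∈ S, e i = 0 then MvPowerSeries.coeff e (1 : MvPowerSeries σ K) else 0) = MvPowerSeries.coeff e 1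
    rw [MvPowerSeries.coeff_one]
    by_cases he : e = 0
    · subst he
      simp
    · simp [he]
  map_mul' := by
    intro f g
    ext e
    show (if ∀ i ∈ S, e i = 0 then MvPowerSeries.coeff e (f * g) else 0) = MvPowerSeries.coeff e (_ * _)
    rw [MvPowerSeries.coeff_mul, MvPowerSeries.coeff_mul]
    by_cases he : ∀ i ∈ S, e i = 0
    · rw [if_pos he]
      refine Finset.sum_congr rfl ?_
      rintro ⟨p, q⟩ hpq
      have h1 : p + q = e := Finset.HasAntidiagonal.mem_antidiagonal.1 hpq
      have h2 : ∀ i ∈ S, p i = 0 := by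
        intro i hi
        have := he i hi
        rw [← h1, Finsupp.add_apply] at this
        omega
      have h3 : ∀ i ∈ S, q i = 0 := by
        intro i hi
        have := he i hi
        rw [← h1, Finsupp.add_apply] at this
        omega
      show MvPowerSeries.coeff p f * MvPowerSeries.coeff q g =
        (if ∀ i ∈ S, p i = 0 then MvPowerSeries.coeff p f else 0) * (if ∀ i ∈ S, q i = 0 then MvPowerSeries.coeff q g else 0)
      rw [if_pos h2, if_pos h3]
    · rw [if_neg he]
      symm
      apply Finset.sum_eq_zero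
      rintro ⟨p, q⟩ hpq
      have h1 : p + q = e := Finset.HasAntidiagonal.mem_antidiagonal.1 hpq
      show (if ∀ i ∈ S, p i = 0 then MvPowerSeries.coeff p f else 0) * (if ∀ i ∈ S, q i = 0 then MvPowerSeries.coeff q g else 0) = 0
      by_cases h2 : ∀ i ∈ S, p i = 0
      · have h3 : ¬ ∀ i ∈ S, q i = 0 := by
          intro h3
          apply he
          intro i hi
          rw [← h1, Finsupp.add_apply, h2 i hi, h3 i hi]
        rw [if_neg h3, mul_zero]
      · rw [if_neg h2, zero_mul]
  map_zero' := by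
    ext e
    show (if ∀ i ∈ S, e i = 0 then MvPowerSeries.coeff e (0 : MvPowerSeries σ K) else 0) = MvPowerSeries.coeff e 0
    simp
  map_add' := by
    intro f g
    ext e
    show (if ∀ i ∈ S, e i = 0 then MvPowerSeries.coeff e (f + g) else 0) =
      (if ∀ i ∈ S, e i = 0 then MvPowerSeries.coeff e f else 0) + (if ∀ i ∈ S, e i = 0 then MvPowerSeries.coeff e g else 0)
    split_ifs <;> simp

open Classical in
theorem coeff_kill (f : MvPowerSeries σ K) (e : σ →₀ ℕ) :
    MvPowerSeries.coeff e (kill K S f) = if ∀ i ∈ S, e i = 0 then MvPowerSeries.coeff e f else 0 := rfl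

theorem kill_kill (T : Set σ) (f : MvPowerSeries σ K) : kill K S (kill K T f) = kill K (S ∪ T) f := by
  classical
  ext e
  rw [coeff_kill, coeff_kill, coeff_kill]
  by_cases h1 : ∀ i ∈ S, e i = 0 <;> by_cases h2 : ∀ i ∈ T, e i = 0
  · rw [if_pos h1, if_pos h2, if_pos]
    rintro i (hi | hi)
    · exact h1 i hi
    · exact h2 i hi
  · rw [if_pos h1, if_neg h2, if_neg]
    intro h
    exact h2 fun i hi => h i (Or.inr hi)
  · rw [if_neg h1, if_neg]
    intro h
    exact h1 fun i hi => h i (Or.inl hi)
  · rw [if_neg h1, if_neg]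
    intro h
    exact h1 fun i hi => h i (Or.inl hi)

theorem kill_idem (f : MvPowerSeries σ K) : kill K S (kill K S f) = kill K S f := by
  rw [kill_kill, Set.union_self]

theorem kill_C (c : K) : kill K S (MvPowerSeries.C c) = MvPowerSeries.C c := by
  classical
  ext e
  rw [coeff_kill, MvPowerSeries.coeff_C]
  by_cases he : e = 0
  · subst he
    simp
  · simp [he]

theorem kill_X_mem {i : σ} (hi : i ∈ S) : kill K S (MvPowerSeries.X i) = 0 := by
  classical
  ext e
  rw [coeff_kill, MvPowerSeries.coeff_X]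
  by_cases he : e = Finsupp.single i 1
  · rw [if_neg]
    · simp
    · intro h
      have := h i hi
      rw [he, Finsupp.single_eq_same] at this
      omega
  · simp [he]

theorem kill_X_not_mem {i : σ} (hi : i ∉ S) : kill K S (MvPowerSeries.X i) = MvPowerSeries.X i := by
  classical
  ext e
  rw [coeff_kill, MvPowerSeries.coeff_X]
  by_cases he : e = Finsupp.single i 1
  · rw [if_pos]
    intro j hj
    rw [he, Finsupp.single_eq_of_ne]
    rintro rfl
    exact hi hj
  · simp [he]

theorem kill_pderiv {i : σ} (hi : i ∉ S) (f : MvPowerSeries σ K) :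
    kill K S (MvPowerSeries.pderiv K i f) = MvPowerSeries.pderiv K i (kill K S f) := by
  classical
  ext e
  rw [coeff_kill, MvPowerSeries.coeff_pderiv, MvPowerSeries.coeff_pderiv, coeff_kill]
  have h : (∀ j ∈ S, ((e + Finsupp.single i 1 : σ →₀ ℕ)) j = 0) ↔ ∀ j ∈ S, e j = 0 := by
    refine forall₂_congr fun j hj => ?_
    rw [Finsupp.add_apply, Finsupp.single_eq_of_ne]
    · simp
    · rintro rfl
      exact hi hj
  by_cases h1 : ∀ j ∈ S, e j = 0
  · rw [if_pos h1, if_pos (h.2 h1)]
  · rw [if_neg h1, if_neg (fun h2 => h1 (h.1 h2)), zero_mul]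

theorem X_dvd_of_kill {i : σ} (f : MvPowerSeries σ K) (h : kill K {i} f = 0) : MvPowerSeries.X i ∣ f := by
  classical
  rw [MvPowerSeries.X_dvd_iff]
  intro m hm
  have h1 : MvPowerSeries.coeff m (kill K {i} f) = 0 := by rw [h, map_zero]
  rw [coeff_kill, if_pos] at h1
  · exact h1
  · intro j hj
    rw [Set.mem_singleton_iff.1 hj]
    exact hm

theorem X_dvd_iff_kill {i : σ} (f : MvPowerSeries σ K) : MvPowerSeries.X i ∣ f ↔ kill K {i} f = 0 := by
  refine ⟨?_, X_dvd_of_kill K f⟩
  rintro ⟨c, rfl⟩
  rw [map_mul, kill_X_mem K _ (Set.mem_singleton i), zero_mul]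

theorem X_prime' [IsDomain K] {i : σ} {f g : MvPowerSeries σ K} (h : MvPowerSeries.X i ∣ f * g) :
    MvPowerSeries.X i ∣ f ∨ MvPowerSeries.X i ∣ g := by
  rw [X_dvd_iff_kill, map_mul] at h
  rw [X_dvd_iff_kill, X_dvd_iff_kill]
  exact mul_eq_zero.1 h

/-- infinite sums `∑ X_i^j c_j` -/
theorem sum_X (i : σ) (c : ℕ → MvPowerSeries σ K) :
    ∃ C : MvPowerSeries σ K, ∀ N, MvPowerSeries.X i ^ N ∣ C - ∑ j ∈ Finset.range N, MvPowerSeries.X i ^ j * c j := by
  classical
  let C : MvPowerSeries σ K := fun e => ∑ j ∈ Finset.range (e i + 1), MvPowerSeries.coeff e (MvPowerSeries.X i ^ j * c j)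
  refine ⟨C, fun N => ?_⟩
  rw [MvPowerSeries.X_pow_dvd_iff]
  intro e he
  have h1 : MvPowerSeries.coeff e C = ∑ j ∈ Finset.range (e i + 1), MvPowerSeries.coeff e (MvPowerSeries.X i ^ j * c j) := rfl
  rw [map_sub, map_sum, h1, sub_eq_zero]
  refine Finset.sum_subset ?_ ?_
  · intro j hj
    rw [Finset.mem_range] at hj ⊢
    omega
  · intro j hj hj'
    rw [Finset.mem_range] at hj hj'
    have h2 : MvPowerSeries.X i ^ j ∣ (MvPowerSeries.X i ^ j * c j : MvPowerSeries σ K) := Dvd.intro _ rfl
    rw [MvPowerSeries.X_pow_dvd_iff] at h2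
    exact h2 e (by omega)

theorem sep_X (i : σ) (x : MvPowerSeries σ K) (h : ∀ N, MvPowerSeries.X i ^ N ∣ x) : x = 0 := by
  ext e
  have h1 := h (e i + 1)
  rw [MvPowerSeries.X_pow_dvd_iff] at h1
  rw [h1 e (by omega), map_zero]

theorem regPair_kill_one [IsDomain K] (i : σ) (a b : MvPowerSeries σ K) (h : RegPair (kill K {i} a) (kill K {i} b)) : RegPair a b := by
  haveI : IsDomain (MvPowerSeries σ K) := NoZeroDivisors.to_isDomain _
  refine regPair_of (kill K {i}) (MvPowerSeries.X i) ?_ (fun x => X_dvd_of_kill K x) ?_ (sum_X K i) (sep_X K i) a b h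
  · intro h0
    have h1 : MvPowerSeries.coeff (Finsupp.single i 1) (MvPowerSeries.X i : MvPowerSeries σ K) = 0 := by rw [h0, map_zero]
    classical
    rw [MvPowerSeries.coeff_X, if_pos rfl] at h1
    exact one_ne_zero h1
  · intro a x c hc
    refine ⟨kill K {i} c, ?_⟩
    have h1 := congrArg (kill K {i}) hc
    rw [map_mul, kill_idem, kill_idem] at h1
    rw [kill_idem]
    exact h1

theorem regPair_kill [IsDomain K] (S : Finset σ) (a b : MvPowerSeries σ K) (h : RegPair (kill K (S : Set σ) a) (kill K (S : Set σ) b)) :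
    RegPair a b := by
  classical
  induction S using Finset.induction_on generalizing a b with
  | empty =>
    have h1 : ∀ f : MvPowerSeries σ K, kill K ((∅ : Finset σ) : Set σ) f = f := by
      intro f
      ext e
      rw [coeff_kill, if_pos]
      simp
    rwa [h1, h1] at h
  | insert i S hi ih =>
    apply regPair_kill_one K i
    apply ih
    rw [kill_kill, kill_kill]
    have h1 : ((S : Set σ) ∪ {i}) = ((insert i S : Finset σ) : Set σ) := by
      rw [Finset.coe_insert, Set.union_singleton]
    rw [h1]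
    exact h

end kill

end Pool.Agent.LibMR10
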