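import Pool.Agent.LibMR10.R3

set_option autoImplicit false

/-! MP_ed98ad_ag, block H (helper10): the fields `regA`, `reg0` of `Geo`. -/

namespace Pool.Agent.LibMR10

open Pool.Agent.LibMX34

theorem map_mn {R R' : Type} [CommRing R] [CommRing R'] (π : R →+* R') (D : Fin 3 → Fin 4 → R) (j : Fin 4) :
    π (mn D j) = mn (fun i a => π (D i a)) j := by
  rw [mn, mn, map_mul, map_pow, map_neg, map_one, RingHom.map_det]
  rfl

/-- the variables `u` -/
def uvars (r : ℕ) : Finset (Fin (r + 3)) := Finset.univ.filter fun i => 3 ≤ (i : ℕ)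

/-- the variables `x, y, z` -/
def xv (r : ℕ) (i : Fin 3) : Fin (r + 3) := Fin.castLE (by omega) i

theorem xv_not_mem (r : ℕ) (i : Fin 3) : xv r i ∉ (uvars r : Set (Fin (r + 3))) := by
  simp only [uvars, Finset.coe_filter, Finset.mem_univ, true_and, Set.mem_setOf_eq, not_le]
  show ((xv r i : Fin (r + 3)) : ℕ) < 3
  rw [xv, Fin.val_castLE]
  exact i.2

theorem xv_inj (r : ℕ) {i j : Fin 3} (h : xv r i = xv r j) : i = j := Fin.castLE_injective _ h

section

variable (k : Type) [Field k] {r : ℕ}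

theorem kill_mn (Φ q : Fin 4 → MvPowerSeries (Fin (r + 3)) k) (h : ∀ j, kill k (uvars r : Set (Fin (r + 3))) (Φ j) = q j) (j : Fin 4) :
    kill k (uvars r : Set (Fin (r + 3))) (mn (jacM k Φ) j) = mn (jacM k q) j := by
  rw [map_mn]
  congr 1
  funext i a
  rw [jacM, jacM]
  have h1 := kill_pderiv k (uvars r : Set (Fin (r + 3))) (xv_not_mem r i) (Φ a)
  rw [h] at h1
  exact h1

theorem reg_of_kill [CharZero k] (Φ q : Fin 4 → MvPowerSeries (Fin (r + 3)) k)
    (h : ∀ j, kill k (uvars r : Set (Fin (r + 3))) (Φ j) = q j) (ε : Fin 4 → k)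
    (hq : RegPair (mn (jacM k q) 3) (∑ j, MvPowerSeries.C (ε j) * mn (jacM k q) j)) :
    RegPair (mn (jacM k Φ) 3) (∑ j, MvPowerSeries.C (ε j) * mn (jacM k Φ) j) := by
  apply regPair_kill k (uvars r)
  rw [kill_mn k Φ q h, map_sum]
  have h1 : ∀ j : Fin 4, kill k (uvars r : Set (Fin (r + 3))) (MvPowerSeries.C (ε j) * mn (jacM k Φ) j) =
      MvPowerSeries.C (ε j) * mn (jacM k q) j := by
    intro j
    rw [map_mul, kill_C, kill_mn k Φ q h]
  simp only [h1]
  exact hq

/-- first normal form of the net -/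
noncomputable def qA (k : Type) [Field k] (r : ℕ) : Fin 4 → MvPowerSeries (Fin (r + 3)) k :=
  let x := MvPowerSeries.X (xv r 0)
  let y := MvPowerSeries.X (xv r 1)
  let z := MvPowerSeries.X (xv r 2)
  ![x ^ 2, y ^ 2, z ^ 2, x * y + y * z + z * x]

/-- second normal form of the net -/
noncomputable def qB (k : Type) [Field k] (r : ℕ) : Fin 4 → MvPowerSeries (Fin (r + 3)) k :=
  let x := MvPowerSeries.X (xv r 0)
  let y := MvPowerSeries.X (xv r 1)
  let z := MvPowerSeries.X (xv r 2)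
  ![y * z, z * x, x * y, x ^ 2 + y ^ 2 + z ^ 2]

theorem pd_xv (i j : Fin 3) : MvPowerSeries.pderiv k (Fin.castLE (by omega) i : Fin (r + 3)) (MvPowerSeries.X (xv r j)) =
    if i = j then 1 else 0 := by
  classical
  by_cases h : i = j
  · subst h
    rw [if_pos rfl]
    exact MvPowerSeries.pderiv_X_self
  · rw [if_neg h]
    apply MvPowerSeries.pderiv_X_of_ne
    intro h1
    exact h (xv_inj r h1).symm

end

end Pool.Agent.LibMR10
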