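import Pool.Agent.LibMR10.R4

set_option autoImplicit false

/-! MP_ed98ad_ag, block H (helper10): the minors of the two normal forms. -/

namespace Pool.Agent.LibMR10

open Pool.Agent.LibMX34

/-- the four minors written out -/
theorem mn_zero {B : Type} [CommRing B] (D : Fin 3 → Fin 4 → B) : mn D 0 =
    D 0 1 * D 1 2 * D 2 3 - D 0 1 * D 1 3 * D 2 2 - D 0 2 * D 1 1 * D 2 3 + D 0 2 * D 1 3 * D 2 1 +
      D 0 3 * D 1 1 * D 2 2 - D 0 3 * D 1 2 * D 2 1 := by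
  rw [mn, Matrix.det_fin_three]
  show (-1) ^ 0 * (D 0 1 * D 1 2 * D 2 3 - D 0 1 * D 1 3 * D 2 2 - D 0 2 * D 1 1 * D 2 3 + D 0 2 * D 1 3 * D 2 1 +
      D 0 3 * D 1 1 * D 2 2 - D 0 3 * D 1 2 * D 2 1) = _
  ring

theorem mn_one {B : Type} [CommRing B] (D : Fin 3 → Fin 4 → B) : mn D 1 =
    - (D 0 0 * D 1 2 * D 2 3 - D 0 0 * D 1 3 * D 2 2 - D 0 2 * D 1 0 * D 2 3 + D 0 2 * D 1 3 * D 2 0 +
      D 0 3 * D 1 0 * D 2 2 - D 0 3 * D 1 2 * D 2 0) := by
  rw [mn, Matrix.det_fin_three]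
  show (-1) ^ 1 * (D 0 0 * D 1 2 * D 2 3 - D 0 0 * D 1 3 * D 2 2 - D 0 2 * D 1 0 * D 2 3 + D 0 2 * D 1 3 * D 2 0 +
      D 0 3 * D 1 0 * D 2 2 - D 0 3 * D 1 2 * D 2 0) = _
  ring

theorem mn_two {B : Type} [CommRing B] (D : Fin 3 → Fin 4 → B) : mn D 2 =
    D 0 0 * D 1 1 * D 2 3 - D 0 0 * D 1 3 * D 2 1 - D 0 1 * D 1 0 * D 2 3 + D 0 1 * D 1 3 * D 2 0 +
      D 0 3 * D 1 0 * D 2 1 - D 0 3 * D 1 1 * D 2 0 := by
  rw [mn, Matrix.det_fin_three]
  show (-1) ^ 2 * (D 0 0 * D 1 1 * D 2 3 - D 0 0 * D 1 3 * D 2 1 - D 0 1 * D 1 0 * D 2 3 + D 0 1 * D 1 3 * D 2 0 +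
      D 0 3 * D 1 0 * D 2 1 - D 0 3 * D 1 1 * D 2 0) = _
  ring

theorem mn_three {B : Type} [CommRing B] (D : Fin 3 → Fin 4 → B) : mn D 3 =
    - (D 0 0 * D 1 1 * D 2 2 - D 0 0 * D 1 2 * D 2 1 - D 0 1 * D 1 0 * D 2 2 + D 0 1 * D 1 2 * D 2 0 +
      D 0 2 * D 1 0 * D 2 1 - D 0 2 * D 1 1 * D 2 0) := by
  rw [mn, Matrix.det_fin_three]
  show (-1) ^ 3 * (D 0 0 * D 1 1 * D 2 2 - D 0 0 * D 1 2 * D 2 1 - D 0 1 * D 1 0 * D 2 2 + D 0 1 * D 1 2 * D 2 0 +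
      D 0 2 * D 1 0 * D 2 1 - D 0 2 * D 1 1 * D 2 0) = _
  ring

section

variable (k : Type) [Field k] (r : ℕ)


theorem jac_qA (i : Fin 3) (j : Fin 4) : jacM k (qA k r) i j =
    (![![2 * (MvPowerSeries.X (xv r 0) : MvPowerSeries (Fin (r + 3)) k), 0, 0, (MvPowerSeries.X (xv r 1) : MvPowerSeries (Fin (r + 3)) k) + (MvPowerSeries.X (xv r 2) : MvPowerSeries (Fin (r + 3)) k)], ![0, 2 * (MvPowerSeries.X (xv r 1) : MvPowerSeries (Fin (r + 3)) k), 0, (MvPowerSeries.X (xv r 0) : MvPowerSeries (Fin (r + 3)) k) + (MvPowerSeries.X (xv r 2) : MvPowerSeries (Fin (r + 3)) k)], ![0, 0, 2 * (MvPowerSeries.X (xv r 2) : MvPowerSeries (Fin (r + 3)) k), (MvPowerSeries.X (xv r 0) : MvPowerSeries (Fin (r + 3)) k) + (MvPowerSeries.X (xv r 1) : MvPowerSeries (Fin (r + 3)) k)]] : Fin 3 → Fin 4 → MvPowerSeries (Fin (r + 3)) k) i j := by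
  rw [jacM]
  have h0 := pd_xv k (r := r) i 0
  have h1 := pd_xv k (r := r) i 1
  have h2 := pd_xv k (r := r) i 2
  generalize MvPowerSeries.pderiv k (Fin.castLE (by omega) i : Fin (r + 3)) = D at h0 h1 h2 ⊢
  have e0 : D (qA k r 0) = 2 * (MvPowerSeries.X (xv r 0) : MvPowerSeries (Fin (r + 3)) k) * D (MvPowerSeries.X (xv r 0) : MvPowerSeries (Fin (r + 3)) k) := by
    show D ((MvPowerSeries.X (xv r 0) : MvPowerSeries (Fin (r + 3)) k) ^ 2) = _
    rw [pow_two, Derivation.leibniz, smul_eq_mul]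
    ring
  have e1 : D (qA k r 1) = 2 * (MvPowerSeries.X (xv r 1) : MvPowerSeries (Fin (r + 3)) k) * D (MvPowerSeries.X (xv r 1) : MvPowerSeries (Fin (r + 3)) k) := by
    show D ((MvPowerSeries.X (xv r 1) : MvPowerSeries (Fin (r + 3)) k) ^ 2) = _
    rw [pow_two, Derivation.leibniz, smul_eq_mul]
    ring
  have e2 : D (qA k r 2) = 2 * (MvPowerSeries.X (xv r 2) : MvPowerSeries (Fin (r + 3)) k) * D (MvPowerSeries.X (xv r 2) : MvPowerSeries (Fin (r + 3)) k) := by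
    show D ((MvPowerSeries.X (xv r 2) : MvPowerSeries (Fin (r + 3)) k) ^ 2) = _
    rw [pow_two, Derivation.leibniz, smul_eq_mul]
    ring
  have e3 : D (qA k r 3) = ((MvPowerSeries.X (xv r 1) : MvPowerSeries (Fin (r + 3)) k) + (MvPowerSeries.X (xv r 2) : MvPowerSeries (Fin (r + 3)) k)) * D (MvPowerSeries.X (xv r 0) : MvPowerSeries (Fin (r + 3)) k) + ((MvPowerSeries.X (xv r 0) : MvPowerSeries (Fin (r + 3)) k) + (MvPowerSeries.X (xv r 2) : MvPowerSeries (Fin (r + 3)) k)) * D (MvPowerSeries.X (xv r 1) : MvPowerSeries (Fin (r + 3)) k) + ((MvPowerSeries.X (xv r 0) : MvPowerSeries (Fin (r + 3)) k) + (MvPowerSeries.X (xv r 1) : MvPowerSeries (Fin (r + 3)) k)) * D (MvPowerSeries.X (xv r 2) : MvPowerSeries (Fin (r + 3)) k) := by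
    show D ((MvPowerSeries.X (xv r 0) : MvPowerSeries (Fin (r + 3)) k) * (MvPowerSeries.X (xv r 1) : MvPowerSeries (Fin (r + 3)) k) + (MvPowerSeries.X (xv r 1) : MvPowerSeries (Fin (r + 3)) k) * (MvPowerSeries.X (xv r 2) : MvPowerSeries (Fin (r + 3)) k) + (MvPowerSeries.X (xv r 2) : MvPowerSeries (Fin (r + 3)) k) * (MvPowerSeries.X (xv r 0) : MvPowerSeries (Fin (r + 3)) k)) = _
    rw [map_add, map_add, Derivation.leibniz, Derivation.leibniz, Derivation.leibniz]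
    simp only [smul_eq_mul]
    ring
  rw [h0] at e0 e3
  rw [h1] at e1 e3
  rw [h2] at e2 e3
  fin_cases j
  · show D (qA k r 0) = _
    rw [e0]
    fin_cases i <;> simp
  · show D (qA k r 1) = _
    rw [e1]
    fin_cases i <;> simp
  · show D (qA k r 2) = _
    rw [e2]
    fin_cases i <;> simp
  · show D (qA k r 3) = _
    rw [e3]
    fin_cases i <;> simp

theorem jac_qB (i : Fin 3) (j : Fin 4) : jacM k (qB k r) i j =
    (![![0, (MvPowerSeries.X (xv r 2) : MvPowerSeries (Fin (r + 3)) k), (MvPowerSeries.X (xv r 1) : MvPowerSeries (Fin (r + 3)) k), 2 * (MvPowerSeries.X (xv r 0) : MvPowerSeries (Fin (r + 3)) k)], ![(MvPowerSeries.X (xv r 2) : MvPowerSeries (Fin (r + 3)) k), 0, (MvPowerSeries.X (xv r 0) : MvPowerSeries (Fin (r + 3)) k), 2 * (MvPowerSeries.X (xv r 1) : MvPowerSeries (Fin (r + 3)) k)], ![(MvPowerSeries.X (xv r 1) : MvPowerSeries (Fin (r + 3)) k), (MvPowerSeries.X (xv r 0)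 : MvPowerSeries (Fin (r + 3)) k), 0, 2 * (MvPowerSeries.X (xv r 2) : MvPowerSeries (Fin (r + 3)) k)]] : Fin 3 → Fin 4 → MvPowerSeries (Fin (r + 3)) k) i j := by
  rw [jacM]
  have h0 := pd_xv k (r := r) i 0
  have h1 := pd_xv k (r := r) i 1
  have h2 := pd_xv k (r := r) i 2
  generalize MvPowerSeries.pderiv k (Fin.castLE (by omega) i : Fin (r + 3)) = D at h0 h1 h2 ⊢
  have e0 : D (qB k r 0) = (MvPowerSeries.X (xv r 2) : MvPowerSeries (Fin (r + 3)) k) * D (MvPowerSeries.X (xv r 1) : MvPowerSeries (Fin (r + 3)) k) + (MvPowerSeries.X (xv r 1) : MvPowerSeries (Fin (r + 3)) k) * D (MvPowerSeries.X (xv r 2) : MvPowerSeries (Fin (r + 3)) k) := by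
    show D ((MvPowerSeries.X (xv r 1) : MvPowerSeries (Fin (r + 3)) k) * (MvPowerSeries.X (xv r 2) : MvPowerSeries (Fin (r + 3)) k)) = _
    rw [Derivation.leibniz, smul_eq_mul, smul_eq_mul]
    ring
  have e1 : D (qB k r 1) = (MvPowerSeries.X (xv r 2) : MvPowerSeries (Fin (r + 3)) k) * D (MvPowerSeries.X (xv r 0) : MvPowerSeries (Fin (r + 3)) k) + (MvPowerSeries.X (xv r 0) : MvPowerSeries (Fin (r + 3)) k) * D (MvPowerSeries.X (xv r 2) : MvPowerSeries (Fin (r + 3)) k) := by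
    show D ((MvPowerSeries.X (xv r 2) : MvPowerSeries (Fin (r + 3)) k) * (MvPowerSeries.X (xv r 0) : MvPowerSeries (Fin (r + 3)) k)) = _
    rw [Derivation.leibniz, smul_eq_mul, smul_eq_mul]
  have e2 : D (qB k r 2) = (MvPowerSeries.X (xv r 1) : MvPowerSeries (Fin (r + 3)) k) * D (MvPowerSeries.X (xv r 0) : MvPowerSeries (Fin (r + 3)) k) + (MvPowerSeries.X (xv r 0) : MvPowerSeries (Fin (r + 3)) k) * D (MvPowerSeries.X (xv r 1) : MvPowerSeries (Fin (r + 3)) k) := by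
    show D ((MvPowerSeries.X (xv r 0) : MvPowerSeries (Fin (r + 3)) k) * (MvPowerSeries.X (xv r 1) : MvPowerSeries (Fin (r + 3)) k)) = _
    rw [Derivation.leibniz, smul_eq_mul, smul_eq_mul]
    ring
  have e3 : D (qB k r 3) = 2 * (MvPowerSeries.X (xv r 0) : MvPowerSeries (Fin (r + 3)) k) * D (MvPowerSeries.X (xv r 0) : MvPowerSeries (Fin (r + 3)) k) + 2 * (MvPowerSeries.X (xv r 1) : MvPowerSeries (Fin (r + 3)) k) * D (MvPowerSeries.X (xv r 1) : MvPowerSeries (Fin (r + 3)) k) + 2 * (MvPowerSeries.X (xv r 2) : MvPowerSeries (Fin (r + 3)) k) * D (MvPowerSeries.X (xv r 2) : MvPowerSeries (Fin (r + 3)) k) := by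
    show D ((MvPowerSeries.X (xv r 0) : MvPowerSeries (Fin (r + 3)) k) ^ 2 + (MvPowerSeries.X (xv r 1) : MvPowerSeries (Fin (r + 3)) k) ^ 2 + (MvPowerSeries.X (xv r 2) : MvPowerSeries (Fin (r + 3)) k) ^ 2) = _
    rw [map_add, map_add, pow_two, pow_two, pow_two, Derivation.leibniz, Derivation.leibniz, Derivation.leibniz]
    simp only [smul_eq_mul]
    ring
  rw [h1, h2] at e0
  rw [h0, h2] at e1
  rw [h0, h1] at e2
  rw [h0, h1, h2] at e3
  fin_cases j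
  · show D (qB k r 0) = _
    rw [e0]
    fin_cases i <;> simp
  · show D (qB k r 1) = _
    rw [e1]
    fin_cases i <;> simp
  · show D (qB k r 2) = _
    rw [e2]
    fin_cases i <;> simp
  · show D (qB k r 3) = _
    rw [e3]
    fin_cases i <;> simp

end

end Pool.Agent.LibMR10
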