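import Pool.Agent.LibMR10.R5

set_option autoImplicit false

/-! MP_ed98ad_ag, block H (helper10): the fields `regA`, `reg0` of `Geo` for `Φ_j = q_j + (terms in the ideal (u, s))`,
`q` one of the two normal forms of the net of quadrics. -/

namespace Pool.Agent.LibMR10

open Pool.Agent.LibMX34

section

variable (k : Type) [Field k] [CharZero k] (r : ℕ)


theorem X_ne' (i : Fin (r + 3)) : (MvPowerSeries.X i : MvPowerSeries (Fin (r + 3)) k) ≠ 0 := by
  intro h0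
  have h1 : MvPowerSeries.coeff (Finsupp.single i 1) (MvPowerSeries.X i : MvPowerSeries (Fin (r + 3)) k) = 0 := by rw [h0, map_zero]
  classical
  rw [MvPowerSeries.coeff_X, if_pos rfl] at h1
  exact one_ne_zero h1

theorem kill_self (i : Fin (r + 3)) : kill k {i} (MvPowerSeries.X i) = 0 := kill_X_mem k _ (Set.mem_singleton i)

theorem kill_other (i j : Fin 3) (h : i ≠ j) : kill k {xv r i} (MvPowerSeries.X (xv r j)) = MvPowerSeries.X (xv r j) := by
  apply kill_X_not_mem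
  rw [Set.mem_singleton_iff]
  intro h1
  exact h (xv_inj r h1).symm

theorem num_ne (m : ℕ) (hm : m ≠ 0) : (m : MvPowerSeries (Fin (r + 3)) k) ≠ 0 := by
  intro h
  have h1 := congrArg (MvPowerSeries.constantCoeff (R := k)) h
  rw [map_natCast, map_zero] at h1
  exact hm (Nat.cast_eq_zero.1 h1)

theorem num_unit (m : ℕ) (hm : m ≠ 0) : IsUnit (m : MvPowerSeries (Fin (r + 3)) k) := by
  rw [MvPowerSeries.isUnit_iff_constantCoeff, map_natCast]
  exact IsUnit.mk0 _ (Nat.cast_ne_zero.2 hm)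

theorem add_ne (i j : Fin 3) (h : i ≠ j) :
    (MvPowerSeries.X (xv r i) + MvPowerSeries.X (xv r j) : MvPowerSeries (Fin (r + 3)) k) ≠ 0 := by
  intro h0
  have h1 := congrArg (kill k {xv r i}) h0
  rw [map_add, kill_self, kill_other k r i j h, zero_add, map_zero] at h1
  exact X_ne' k r _ h1

theorem sub_ne (i j : Fin 3) (h : i ≠ j) :
    (MvPowerSeries.X (xv r i) - MvPowerSeries.X (xv r j) : MvPowerSeries (Fin (r + 3)) k) ≠ 0 := by
  intro h0
  have h1 := congrArg (kill k {xv r i}) h0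
  rw [map_sub, kill_self, kill_other k r i j h, zero_sub, map_zero, neg_eq_zero] at h1
  exact X_ne' k r _ h1

/-- the numbers `e_j` -/
def eps (k : Type) [Field k] : Fin 4 → k := ![1, 1, 1, 0]

theorem reg_qA : RegPair (mn (jacM k (qA k r)) 3) (∑ j, MvPowerSeries.C (eps k j) * mn (jacM k (qA k r)) j) := by
  haveI : IsDomain (MvPowerSeries (Fin (r + 3)) k) := NoZeroDivisors.to_isDomain _
  have h3 : mn (jacM k (qA k r)) 3 = (-((8 : ℕ) : MvPowerSeries (Fin (r + 3)) k)) * ((MvPowerSeries.X (xv r 0) : MvPowerSeries (Fin (r + 3)) k) * (MvPowerSeries.X (xv r 1) : MvPowerSeries (Fin (r + 3)) k) * (MvPowerSeries.X (xv r 2) : MvPowerSeries (Fin (r + 3)) k)) := by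
    rw [mn_three]
    simp only [jac_qA]
    show - (2 * (MvPowerSeries.X (xv r 0) : MvPowerSeries (Fin (r + 3)) k) * (2 * (MvPowerSeries.X (xv r 1) : MvPowerSeries (Fin (r + 3)) k)) * (2 * (MvPowerSeries.X (xv r 2) : MvPowerSeries (Fin (r + 3)) k)) - 2 * (MvPowerSeries.X (xv r 0) : MvPowerSeries (Fin (r + 3)) k) * 0 * 0 - 0 * 0 * (2 * (MvPowerSeries.X (xv r 2) : MvPowerSeries (Fin (r + 3)) k)) + 0 * 0 * 0 + 0 * 0 * 0 - 0 * (2 * (MvPowerSeries.X (xv r 1) : MvPowerSeries (Fin (r + 3)) k)) * 0) = _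
    push_cast
    ring
  have h4 : (∑ j, MvPowerSeries.C (eps k j) * mn (jacM k (qA k r)) j) =
      ((4 : ℕ) : MvPowerSeries (Fin (r + 3)) k) * ((MvPowerSeries.X (xv r 1) : MvPowerSeries (Fin (r + 3)) k) * (MvPowerSeries.X (xv r 2) : MvPowerSeries (Fin (r + 3)) k) * ((MvPowerSeries.X (xv r 1) : MvPowerSeries (Fin (r + 3)) k) + (MvPowerSeries.X (xv r 2) : MvPowerSeries (Fin (r + 3)) k)) + (MvPowerSeries.X (xv r 0) : MvPowerSeries (Fin (r + 3)) k) * (MvPowerSeries.X (xv r 2) : MvPowerSeries (Fin (r + 3)) k) * ((MvPowerSeries.X (xv r 0) : MvPowerSeries (Fin (r + 3)) k) + (MvPowerSeries.X (xv r 2) : MvPowerSeries (Fin (r + 3)) k)) + (MvPowerSeries.X (xv r 0) : MvPowerSeries (Fin (r + 3)) k) * (MvPowerSeries.X (xv r 1) : MvPowerSeries (Fin (r + 3)) k) * ((MvPowerSeries.X (xv r 0) : MvPowerSeries (Fin (r + 3)) k) + (MvPowerSeries.X (xv r 1) : MvPowerSeries (Fin (r + 3)) k))) := by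
    rw [Fin.sum_univ_four]
    show MvPowerSeries.C 1 * mn (jacM k (qA k r)) 0 + MvPowerSeries.C 1 * mn (jacM k (qA k r)) 1 +
      MvPowerSeries.C 1 * mn (jacM k (qA k r)) 2 + MvPowerSeries.C 0 * mn (jacM k (qA k r)) 3 = _
    rw [mn_zero, mn_one, mn_two, map_one, map_zero, one_mul, one_mul, one_mul, zero_mul, add_zero]
    simp only [jac_qA]
    show 0 * 0 * ((MvPowerSeries.X (xv r 0) : MvPowerSeries (Fin (r + 3)) k) + (MvPowerSeries.X (xv r 1) : MvPowerSeries (Fin (r + 3)) k)) - 0 * ((MvPowerSeries.X (xv r 0) : MvPowerSeries (Fin (r + 3)) k) + (MvPowerSeries.X (xv r 2) : MvPowerSeries (Fin (r + 3)) k)) * (2 * (MvPowerSeries.X (xv r 2) : MvPowerSeries (Fin (r + 3)) k)) - 0 * (2 * (MvPowerSeries.X (xv r 1) : MvPowerSeries (Fin (r + 3)) k)) * ((MvPowerSeries.X (xv r 0) : MvPowerSeries (Fin (r + 3)) k) + (MvPowerSeries.X (xv r 1) : MvPowerSeries (Fin (r + 3)) k)) + 0 * ((MvPowerSeries.X (xv r 0) :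 MvPowerSeries (Fin (r + 3)) k) + (MvPowerSeries.X (xv r 2) : MvPowerSeries (Fin (r + 3)) k)) * 0 +
        ((MvPowerSeries.X (xv r 1) : MvPowerSeries (Fin (r + 3)) k) + (MvPowerSeries.X (xv r 2) : MvPowerSeries (Fin (r + 3)) k)) * (2 * (MvPowerSeries.X (xv r 1) : MvPowerSeries (Fin (r + 3)) k)) * (2 * (MvPowerSeries.X (xv r 2) : MvPowerSeries (Fin (r + 3)) k)) - ((MvPowerSeries.X (xv r 1) : MvPowerSeries (Fin (r + 3)) k) + (MvPowerSeries.X (xv r 2) : MvPowerSeries (Fin (r + 3)) k)) * 0 * 0 +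
      - (2 * (MvPowerSeries.X (xv r 0) : MvPowerSeries (Fin (r + 3)) k) * 0 * ((MvPowerSeries.X (xv r 0) : MvPowerSeries (Fin (r + 3)) k) + (MvPowerSeries.X (xv r 1) : MvPowerSeries (Fin (r + 3)) k)) - 2 * (MvPowerSeries.X (xv r 0) : MvPowerSeries (Fin (r + 3)) k) * ((MvPowerSeries.X (xv r 0) : MvPowerSeries (Fin (r + 3)) k) + (MvPowerSeries.X (xv r 2) : MvPowerSeries (Fin (r + 3)) k)) * (2 * (MvPowerSeries.X (xv r 2) : MvPowerSeries (Fin (r + 3)) k)) - 0 * 0 * ((MvPowerSeries.X (xv r 0) : MvPowerSeries (Fin (r + 3)) k) + (MvPowerSeries.X (xv r 1) : MvPowerSeries (Fin (r + 3)) k)) + 0 * ((MvPowerSeries.X (xv r 0) : MvPowerSeries (Fin (r + 3)) k) + (MvPowerSeries.X (xv r 2) : MvPowerSeries (Fin (r + 3)) k)) * 0 +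
        ((MvPowerSeries.X (xv r 1) : MvPowerSeries (Fin (r + 3)) k) + (MvPowerSeries.X (xv r 2) : MvPowerSeries (Fin (r + 3)) k)) * 0 * (2 * (MvPowerSeries.X (xv r 2) : MvPowerSeries (Fin (r + 3)) k)) - ((MvPowerSeries.X (xv r 1) : MvPowerSeries (Fin (r + 3)) k) + (MvPowerSeries.X (xv r 2) : MvPowerSeries (Fin (r + 3)) k)) * 0 * 0) +
      (2 * (MvPowerSeries.X (xv r 0) : MvPowerSeries (Fin (r + 3)) k) * (2 * (MvPowerSeries.X (xv r 1) : MvPowerSeries (Fin (r + 3)) k)) * ((MvPowerSeries.X (xv r 0) : MvPowerSeries (Fin (r + 3)) k) + (MvPowerSeries.X (xv r 1) : MvPowerSeries (Fin (r + 3)) k)) - 2 * (MvPowerSeries.X (xv r 0) : MvPowerSeries (Fin (r + 3)) k) * ((MvPowerSeries.X (xv r 0) : MvPowerSeries (Fin (r + 3)) k) + (MvPowerSeries.X (xv r 2) : MvPowerSeries (Fin (r + 3)) k)) * 0 - 0 * 0 * ((MvPowerSeries.X (xv r 0) : MvPowerSeries (Fin (r + 3)) k) + (MvPowerSeries.X (xv r 1) : MvPowerSeries (Fin (r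 + 3)) k)) + 0 * ((MvPowerSeries.X (xv r 0) : MvPowerSeries (Fin (r + 3)) k) + (MvPowerSeries.X (xv r 2) : MvPowerSeries (Fin (r + 3)) k)) * 0 +
        ((MvPowerSeries.X (xv r 1) : MvPowerSeries (Fin (r + 3)) k) + (MvPowerSeries.X (xv r 2) : MvPowerSeries (Fin (r + 3)) k)) * 0 * 0 - ((MvPowerSeries.X (xv r 1) : MvPowerSeries (Fin (r + 3)) k) + (MvPowerSeries.X (xv r 2) : MvPowerSeries (Fin (r + 3)) k)) * (2 * (MvPowerSeries.X (xv r 1) : MvPowerSeries (Fin (r + 3)) k)) * 0) = _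
    push_cast
    ring
  rw [h3, h4]
  apply regPair_xyz
  · exact (num_unit k r 8 (by norm_num)).neg
  · rw [X_dvd_iff_kill]
    simp only [map_mul, map_add, map_natCast, kill_self, kill_other k r 0 1 (by decide), kill_other k r 0 2 (by decide)]
    have h5 : ((4 : ℕ) : MvPowerSeries (Fin (r + 3)) k) * ((MvPowerSeries.X (xv r 1) : MvPowerSeries (Fin (r + 3)) k) * (MvPowerSeries.X (xv r 2) : MvPowerSeries (Fin (r + 3)) k) * ((MvPowerSeries.X (xv r 1) : MvPowerSeries (Fin (r + 3)) k) + (MvPowerSeries.X (xv r 2) : MvPowerSeries (Fin (r + 3)) k)) + 0 * (MvPowerSeries.X (xv r 2) : MvPowerSeries (Fin (r + 3)) k) * (0 + (MvPowerSeries.X (xv r 2) : MvPowerSeries (Fin (r + 3)) k)) + 0 * (MvPowerSeries.X (xv r 1) : MvPowerSeries (Fin (r + 3)) k) * (0 + (MvPowerSeries.X (xv r 1) : MvPowerSeries (Fin (r + 3)) k))) =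
      ((4 : ℕ) : MvPowerSeries (Fin (r + 3)) k) * ((MvPowerSeries.X (xv r 1) : MvPowerSeries (Fin (r + 3)) k) * (MvPowerSeries.X (xv r 2) : MvPowerSeries (Fin (r + 3)) k) * ((MvPowerSeries.X (xv r 1) : MvPowerSeries (Fin (r + 3)) k) + (MvPowerSeries.X (xv r 2) : MvPowerSeries (Fin (r + 3)) k))) := by ring
    rw [h5]
    exact mul_ne_zero (num_ne k r 4 (by norm_num)) (mul_ne_zero (mul_ne_zero (X_ne' k r _) (X_ne' k r _)) (add_ne k r 1 2 (by decide)))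
  · rw [X_dvd_iff_kill]
    simp only [map_mul, map_add, map_natCast, kill_self, kill_other k r 1 0 (by decide), kill_other k r 1 2 (by decide)]
    have h5 : ((4 : ℕ) : MvPowerSeries (Fin (r + 3)) k) * (0 * (MvPowerSeries.X (xv r 2) : MvPowerSeries (Fin (r + 3)) k) * (0 + (MvPowerSeries.X (xv r 2) : MvPowerSeries (Fin (r + 3)) k)) + (MvPowerSeries.X (xv r 0) : MvPowerSeries (Fin (r + 3)) k) * (MvPowerSeries.X (xv r 2) : MvPowerSeries (Fin (r + 3)) k) * ((MvPowerSeries.X (xv r 0) : MvPowerSeries (Fin (r + 3)) k) + (MvPowerSeries.X (xv r 2) : MvPowerSeries (Fin (r + 3)) k)) + (MvPowerSeries.X (xv r 0) : MvPowerSeries (Fin (r + 3)) k) * 0 * ((MvPowerSeries.X (xv r 0) : MvPowerSeries (Fin (r + 3)) k) + 0)) =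
      ((4 : ℕ) : MvPowerSeries (Fin (r + 3)) k) * ((MvPowerSeries.X (xv r 0) : MvPowerSeries (Fin (r + 3)) k) * (MvPowerSeries.X (xv r 2) : MvPowerSeries (Fin (r + 3)) k) * ((MvPowerSeries.X (xv r 0) : MvPowerSeries (Fin (r + 3)) k) + (MvPowerSeries.X (xv r 2) : MvPowerSeries (Fin (r + 3)) k))) := by ring
    rw [h5]
    exact mul_ne_zero (num_ne k r 4 (by norm_num)) (mul_ne_zero (mul_ne_zero (X_ne' k r _) (X_ne' k r _)) (add_ne k r 0 2 (by decide)))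
  · rw [X_dvd_iff_kill]
    simp only [map_mul, map_add, map_natCast, kill_self, kill_other k r 2 0 (by decide), kill_other k r 2 1 (by decide)]
    have h5 : ((4 : ℕ) : MvPowerSeries (Fin (r + 3)) k) * ((MvPowerSeries.X (xv r 1) : MvPowerSeries (Fin (r + 3)) k) * 0 * ((MvPowerSeries.X (xv r 1) : MvPowerSeries (Fin (r + 3)) k) + 0) + (MvPowerSeries.X (xv r 0) : MvPowerSeries (Fin (r + 3)) k) * 0 * ((MvPowerSeries.X (xv r 0) : MvPowerSeries (Fin (r + 3)) k) + 0) + (MvPowerSeries.X (xv r 0) : MvPowerSeries (Fin (r + 3)) k) * (MvPowerSeries.X (xv r 1) : MvPowerSeries (Fin (r + 3)) k) * ((MvPowerSeries.X (xv r 0) : MvPowerSeries (Fin (r + 3)) k) + (MvPowerSeries.X (xv r 1) : MvPowerSeries (Fin (r + 3)) k))) =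
      ((4 : ℕ) : MvPowerSeries (Fin (r + 3)) k) * ((MvPowerSeries.X (xv r 0) : MvPowerSeries (Fin (r + 3)) k) * (MvPowerSeries.X (xv r 1) : MvPowerSeries (Fin (r + 3)) k) * ((MvPowerSeries.X (xv r 0) : MvPowerSeries (Fin (r + 3)) k) + (MvPowerSeries.X (xv r 1) : MvPowerSeries (Fin (r + 3)) k))) := by ring
    rw [h5]
    exact mul_ne_zero (num_ne k r 4 (by norm_num)) (mul_ne_zero (mul_ne_zero (X_ne' k r _) (X_ne' k r _)) (add_ne k r 0 1 (by decide)))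

theorem reg_qB : RegPair (mn (jacM k (qB k r)) 3) (∑ j, MvPowerSeries.C (eps k j) * mn (jacM k (qB k r)) j) := by
  haveI : IsDomain (MvPowerSeries (Fin (r + 3)) k) := NoZeroDivisors.to_isDomain _
  have h3 : mn (jacM k (qB k r)) 3 = (-((2 : ℕ) : MvPowerSeries (Fin (r + 3)) k)) * ((MvPowerSeries.X (xv r 0) : MvPowerSeries (Fin (r + 3)) k) * (MvPowerSeries.X (xv r 1) : MvPowerSeries (Fin (r + 3)) k) * (MvPowerSeries.X (xv r 2) : MvPowerSeries (Fin (r + 3)) k)) := by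
    rw [mn_three]
    simp only [jac_qB]
    show - (0 * 0 * 0 - 0 * (MvPowerSeries.X (xv r 0) : MvPowerSeries (Fin (r + 3)) k) * (MvPowerSeries.X (xv r 0) : MvPowerSeries (Fin (r + 3)) k) - (MvPowerSeries.X (xv r 2) : MvPowerSeries (Fin (r + 3)) k) * (MvPowerSeries.X (xv r 2) : MvPowerSeries (Fin (r + 3)) k) * 0 + (MvPowerSeries.X (xv r 2) : MvPowerSeries (Fin (r + 3)) k) * (MvPowerSeries.X (xv r 0) : MvPowerSeries (Fin (r + 3)) k) * (MvPowerSeries.X (xv r 1) : MvPowerSeries (Fin (r + 3)) k) + (MvPowerSeries.X (xv r 1) : MvPowerSeries (Fin (r + 3)) k) * (MvPowerSeries.X (xv r 2) : MvPowerSeries (Fin (r + 3)) k) * (MvPowerSeries.X (xv r 0) : MvPowerSeries (Fin (r + 3)) k) - (MvPowerSeries.X (xv r 1) : MvPowerSeries (Fin (r + 3)) k) * 0 * (MvPowerSeries.X (xv r 1) : MvPowerSeries (Fin (r + 3)) k)) = _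
    push_cast
    ring
  have h4 : (∑ j, MvPowerSeries.C (eps k j) * mn (jacM k (qB k r)) j) =
      ((2 : ℕ) : MvPowerSeries (Fin (r + 3)) k) * ((MvPowerSeries.X (xv r 0) : MvPowerSeries (Fin (r + 3)) k) * ((MvPowerSeries.X (xv r 1) : MvPowerSeries (Fin (r + 3)) k) ^ 2 + (MvPowerSeries.X (xv r 2) : MvPowerSeries (Fin (r + 3)) k) ^ 2 - (MvPowerSeries.X (xv r 0) : MvPowerSeries (Fin (r + 3)) k) ^ 2) + (MvPowerSeries.X (xv r 1) : MvPowerSeries (Fin (r + 3)) k) * ((MvPowerSeries.X (xv r 0) : MvPowerSeries (Fin (r + 3)) k) ^ 2 + (MvPowerSeries.X (xv r 2) : MvPowerSeries (Fin (r + 3)) k) ^ 2 - (MvPowerSeries.X (xv r 1) : MvPowerSeries (Fin (r + 3)) k) ^ 2) +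
        (MvPowerSeries.X (xv r 2) : MvPowerSeries (Fin (r + 3)) k) * ((MvPowerSeries.X (xv r 0) : MvPowerSeries (Fin (r + 3)) k) ^ 2 + (MvPowerSeries.X (xv r 1) : MvPowerSeries (Fin (r + 3)) k) ^ 2 - (MvPowerSeries.X (xv r 2) : MvPowerSeries (Fin (r + 3)) k) ^ 2)) := by
    rw [Fin.sum_univ_four]
    show MvPowerSeries.C 1 * mn (jacM k (qB k r)) 0 + MvPowerSeries.C 1 * mn (jacM k (qB k r)) 1 +
      MvPowerSeries.C 1 * mn (jacM k (qB k r)) 2 + MvPowerSeries.C 0 * mn (jacM k (qB k r)) 3 = _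
    rw [mn_zero, mn_one, mn_two, map_one, map_zero, one_mul, one_mul, one_mul, zero_mul, add_zero]
    simp only [jac_qB]
    show (MvPowerSeries.X (xv r 2) : MvPowerSeries (Fin (r + 3)) k) * (MvPowerSeries.X (xv r 0) : MvPowerSeries (Fin (r + 3)) k) * (2 * (MvPowerSeries.X (xv r 2) : MvPowerSeries (Fin (r + 3)) k)) - (MvPowerSeries.X (xv r 2) : MvPowerSeries (Fin (r + 3)) k) * (2 * (MvPowerSeries.X (xv r 1) : MvPowerSeries (Fin (r + 3)) k)) * 0 - (MvPowerSeries.X (xv r 1) : MvPowerSeries (Fin (r + 3)) k) * 0 * (2 * (MvPowerSeries.X (xv r 2) : MvPowerSeries (Fin (r + 3)) k)) + (MvPowerSeries.X (xv r 1) : MvPowerSeries (Fin (r + 3)) k) * (2 * (MvPowerSeries.X (xv r 1) : MvPowerSeries (Fin (r + 3)) k)) * (MvPowerSeries.X (xv r 0) : MvPowerSeries (Fin (r + 3)) k) + 2 * (MvPowerSeries.X (xv r 0) : MvPowerSeries (Fin (r + 3)) k) * 0 * 0 - 2 * (MvPowerSeries.X (xv r 0) : MvPowerSeries (Fin (r + 3)) k) *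 (MvPowerSeries.X (xv r 0) : MvPowerSeries (Fin (r + 3)) k) * (MvPowerSeries.X (xv r 0) : MvPowerSeries (Fin (r + 3)) k) +
      - (0 * (MvPowerSeries.X (xv r 0) : MvPowerSeries (Fin (r + 3)) k) * (2 * (MvPowerSeries.X (xv r 2) : MvPowerSeries (Fin (r + 3)) k)) - 0 * (2 * (MvPowerSeries.X (xv r 1) : MvPowerSeries (Fin (r + 3)) k)) * 0 - (MvPowerSeries.X (xv r 1) : MvPowerSeries (Fin (r + 3)) k) * (MvPowerSeries.X (xv r 2) : MvPowerSeries (Fin (r + 3)) k) * (2 * (MvPowerSeries.X (xv r 2) : MvPowerSeries (Fin (r + 3)) k)) + (MvPowerSeries.X (xv r 1) : MvPowerSeries (Fin (r + 3)) k) * (2 * (MvPowerSeries.X (xv r 1) : MvPowerSeries (Fin (r + 3)) k)) * (MvPowerSeries.X (xv r 1) : MvPowerSeries (Fin (r + 3)) k) + 2 * (MvPowerSeries.X (xv r 0) : MvPowerSeries (Fin (r + 3)) k) * (MvPowerSeries.X (xv r 2) : MvPowerSeries (Fin (r + 3)) k) * 0 - 2 * (MvPowerSeries.X (xv r 0) : MvPowerSeries (Fin (r + 3)) k) *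 (MvPowerSeries.X (xv r 0) : MvPowerSeries (Fin (r + 3)) k) * (MvPowerSeries.X (xv r 1) : MvPowerSeries (Fin (r + 3)) k)) +
      (0 * 0 * (2 * (MvPowerSeries.X (xv r 2) : MvPowerSeries (Fin (r + 3)) k)) - 0 * (2 * (MvPowerSeries.X (xv r 1) : MvPowerSeries (Fin (r + 3)) k)) * (MvPowerSeries.X (xv r 0) : MvPowerSeries (Fin (r + 3)) k) - (MvPowerSeries.X (xv r 2) : MvPowerSeries (Fin (r + 3)) k) * (MvPowerSeries.X (xv r 2) : MvPowerSeries (Fin (r + 3)) k) * (2 * (MvPowerSeries.X (xv r 2) : MvPowerSeries (Fin (r + 3)) k)) + (MvPowerSeries.X (xv r 2) : MvPowerSeries (Fin (r + 3)) k) * (2 * (MvPowerSeries.X (xv r 1) : MvPowerSeries (Fin (r + 3)) k)) * (MvPowerSeries.X (xv r 1) : MvPowerSeries (Fin (r + 3)) k) + 2 * (MvPowerSeries.X (xv r 0) : MvPowerSeries (Fin (r + 3)) k) * (MvPowerSeries.X (xv r 2) : MvPowerSeries (Fin (r + 3)) k) * (MvPowerSeries.X (xv r 0) : MvPowerSeries (Fin (r + 3)) k) - 2 * (MvPowerSeries.X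 (xv r 0) : MvPowerSeries (Fin (r + 3)) k) * 0 * (MvPowerSeries.X (xv r 1) : MvPowerSeries (Fin (r + 3)) k)) = _
    push_cast
    ring
  rw [h3, h4]
  apply regPair_xyz
  · exact (num_unit k r 2 (by norm_num)).neg
  · rw [X_dvd_iff_kill]
    simp only [map_mul, map_add, map_sub, map_pow, map_natCast, kill_self, kill_other k r 0 1 (by decide), kill_other k r 0 2 (by decide)]
    have h5 : ((2 : ℕ) : MvPowerSeries (Fin (r + 3)) k) * (0 * ((MvPowerSeries.X (xv r 1) : MvPowerSeries (Fin (r + 3)) k) ^ 2 + (MvPowerSeries.X (xv r 2) : MvPowerSeries (Fin (r + 3)) k) ^ 2 - 0 ^ 2) + (MvPowerSeries.X (xv r 1) : MvPowerSeries (Fin (r + 3)) k) * (0 ^ 2 + (MvPowerSeries.X (xv r 2) : MvPowerSeries (Fin (r + 3)) k) ^ 2 - (MvPowerSeries.X (xv r 1) : MvPowerSeries (Fin (r + 3)) k) ^ 2) +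
        (MvPowerSeries.X (xv r 2) : MvPowerSeries (Fin (r + 3)) k) * (0 ^ 2 + (MvPowerSeries.X (xv r 1) : MvPowerSeries (Fin (r + 3)) k) ^ 2 - (MvPowerSeries.X (xv r 2) : MvPowerSeries (Fin (r + 3)) k) ^ 2)) = - (((2 : ℕ) : MvPowerSeries (Fin (r + 3)) k) * (((MvPowerSeries.X (xv r 1) : MvPowerSeries (Fin (r + 3)) k) - (MvPowerSeries.X (xv r 2) : MvPowerSeries (Fin (r + 3)) k)) ^ 2 * ((MvPowerSeries.X (xv r 1) : MvPowerSeries (Fin (r + 3)) k) + (MvPowerSeries.X (xv r 2) : MvPowerSeries (Fin (r + 3)) k)))) := by ring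
    rw [h5]
    exact neg_ne_zero.2 (mul_ne_zero (num_ne k r 2 (by norm_num)) (mul_ne_zero (pow_ne_zero _ (sub_ne k r 1 2 (by decide))) (add_ne k r 1 2 (by decide))))
  · rw [X_dvd_iff_kill]
    simp only [map_mul, map_add, map_sub, map_pow, map_natCast, kill_self, kill_other k r 1 0 (by decide), kill_other k r 1 2 (by decide)]
    have h5 : ((2 : ℕ) : MvPowerSeries (Fin (r + 3)) k) * ((MvPowerSeries.X (xv r 0) : MvPowerSeries (Fin (r + 3)) k) * (0 ^ 2 + (MvPowerSeries.X (xv r 2) : MvPowerSeries (Fin (r + 3)) k) ^ 2 - (MvPowerSeries.X (xv r 0) : MvPowerSeries (Fin (r + 3)) k) ^ 2) + 0 * ((MvPowerSeries.X (xv r 0) : MvPowerSeries (Fin (r + 3)) k) ^ 2 + (MvPowerSeries.X (xv r 2) : MvPowerSeries (Fin (r + 3)) k) ^ 2 - 0 ^ 2) +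
        (MvPowerSeries.X (xv r 2) : MvPowerSeries (Fin (r + 3)) k) * ((MvPowerSeries.X (xv r 0) : MvPowerSeries (Fin (r + 3)) k) ^ 2 + 0 ^ 2 - (MvPowerSeries.X (xv r 2) : MvPowerSeries (Fin (r + 3)) k) ^ 2)) = - (((2 : ℕ) : MvPowerSeries (Fin (r + 3)) k) * (((MvPowerSeries.X (xv r 0) : MvPowerSeries (Fin (r + 3)) k) - (MvPowerSeries.X (xv r 2) : MvPowerSeries (Fin (r + 3)) k)) ^ 2 * ((MvPowerSeries.X (xv r 0) : MvPowerSeries (Fin (r + 3)) k) + (MvPowerSeries.X (xv r 2) : MvPowerSeries (Fin (r + 3)) k)))) := by ring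
    rw [h5]
    exact neg_ne_zero.2 (mul_ne_zero (num_ne k r 2 (by norm_num)) (mul_ne_zero (pow_ne_zero _ (sub_ne k r 0 2 (by decide))) (add_ne k r 0 2 (by decide))))
  · rw [X_dvd_iff_kill]
    simp only [map_mul, map_add, map_sub, map_pow, map_natCast, kill_self, kill_other k r 2 0 (by decide), kill_other k r 2 1 (by decide)]
    have h5 : ((2 : ℕ) : MvPowerSeries (Fin (r + 3)) k) * ((MvPowerSeries.X (xv r 0) : MvPowerSeries (Fin (r + 3)) k) * ((MvPowerSeries.X (xv r 1) : MvPowerSeries (Fin (r + 3)) k) ^ 2 + 0 ^ 2 - (MvPowerSeries.X (xv r 0) : MvPowerSeries (Fin (r + 3)) k) ^ 2) + (MvPowerSeries.X (xv r 1) : MvPowerSeries (Fin (r + 3)) k) * ((MvPowerSeries.X (xv r 0) : MvPowerSeries (Fin (r + 3)) k) ^ 2 + 0 ^ 2 - (MvPowerSeries.X (xv r 1) : MvPowerSeries (Fin (r + 3)) k) ^ 2) +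
        0 * ((MvPowerSeries.X (xv r 0) : MvPowerSeries (Fin (r + 3)) k) ^ 2 + (MvPowerSeries.X (xv r 1) : MvPowerSeries (Fin (r + 3)) k) ^ 2 - 0 ^ 2)) = - (((2 : ℕ) : MvPowerSeries (Fin (r + 3)) k) * (((MvPowerSeries.X (xv r 0) : MvPowerSeries (Fin (r + 3)) k) - (MvPowerSeries.X (xv r 1) : MvPowerSeries (Fin (r + 3)) k)) ^ 2 * ((MvPowerSeries.X (xv r 0) : MvPowerSeries (Fin (r + 3)) k) + (MvPowerSeries.X (xv r 1) : MvPowerSeries (Fin (r + 3)) k)))) := by ring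
    rw [h5]
    exact neg_ne_zero.2 (mul_ne_zero (num_ne k r 2 (by norm_num)) (mul_ne_zero (pow_ne_zero _ (sub_ne k r 0 1 (by decide))) (add_ne k r 0 1 (by decide))))

end

section final

variable (k : Type) [Field k] [CharZero k] {r : ℕ}

/-- the field `reg0` of `Geo` -/
theorem reg0_of (Φ : Fin 4 → MvPowerSeries (Fin (r + 3)) (PowerSeries k))
    (h : (∀ j, kill k (uvars r : Set (Fin (r + 3))) (atZero k (Φ j)) = qA k r j) ∨
      (∀ j, kill k (uvars r : Set (Fin (r + 3))) (atZero k (Φ j)) = qB k r j)) :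
    ∃ e : Fin 4 → MvPowerSeries (Fin (r + 3)) k,
      RegPair (mn (jacM k fun j => atZero k (Φ j)) 3) (∑ j, e j * mn (jacM k fun j => atZero k (Φ j)) j) := by
  refine ⟨fun j => MvPowerSeries.C (eps k j), ?_⟩
  rcases h with h | h
  · exact reg_of_kill k (fun j => atZero k (Φ j)) (qA k r) h (eps k) (reg_qA k r)
  · exact reg_of_kill k (fun j => atZero k (Φ j)) (qB k r) h (eps k) (reg_qB k r)

/-- the field `regA` of `Geo` follows from `reg0` -/
theorem regA_of (Φ : Fin 4 → MvPowerSeries (Fin (r + 3)) (PowerSeries k))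
    (h : ∃ e : Fin 4 → MvPowerSeries (Fin (r + 3)) k,
      RegPair (mn (jacM k fun j => atZero k (Φ j)) 3) (∑ j, e j * mn (jacM k fun j => atZero k (Φ j)) j)) :
    ∃ e : Fin 4 → MvPowerSeries (Fin (r + 3)) (PowerSeries k),
      RegPair (mn (jacM (PowerSeries k) Φ) 3) (∑ j, e j * mn (jacM (PowerSeries k) Φ) j) := by
  obtain ⟨e, he⟩ := h
  have h1 : ∀ j, ∃ f : MvPowerSeries (Fin (r + 3)) (PowerSeries k), atZero k f = e j := fun j => at_surj' k (e j)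
  choose e' he' using h1
  refine ⟨e', ?_⟩
  apply regPair_at k
  have h2 : ∀ j, atZero k (mn (jacM (PowerSeries k) Φ) j) = mn (jacM k fun j => atZero k (Φ j)) j := by
    intro j
    rw [map_mn]
    congr 1
    funext i a
    rw [jacM, jacM]
    ext1 m
    rw [atZero, MvPowerSeries.coeff_map, MvPowerSeries.coeff_pderiv, MvPowerSeries.coeff_pderiv, MvPowerSeries.coeff_map]
    simp
  rw [h2, map_sum]
  simp only [map_mul, h2, he']
  exact he

end final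

end Pool.Agent.LibMR10
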